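import Pool.Agent.Helper88_ZAR.Rk

/-!
# Squad ZAR, row LV5
-/

namespace Pool.Agent.ZAR.H88

open MvPowerSeries Pool.Agent.ZAR

section lin

variable {K : Type} [Field K]

/-- the linear substitution -/
noncomputable def lin {n : ℕ} (G : Matrix (Fin n) (Fin n) K) : Fin n → MvPowerSeries (Fin n) K :=
  fun i => ∑ m, C (G i m) * X m

theorem cc_lin {n : ℕ} (G : Matrix (Fin n) (Fin n) K) (i : Fin n) :
    constantCoeff (lin G i) = 0 := by
  rw [lin, map_sum]
  refine Finset.sum_eq_zero fun m _ => ?_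
  rw [map_mul, constantCoeff_X, mul_zero]

theorem subst_lin {n q : ℕ} (G : Matrix (Fin n) (Fin n) K) {f : Fin n → MvPowerSeries (Fin q) K}
    (hf : ∀ i, constantCoeff (f i) = 0) (i : Fin n) :
    subst f (lin G i) = ∑ m, C (G i m) * f m := by
  rw [lin, ← substAlgHom_apply (hs hf), map_sum]
  refine Finset.sum_congr rfl fun m _ => ?_
  rw [map_mul, substAlgHom_apply, substAlgHom_apply, subst_C, subst_X (hs hf)]

theorem cc_G {n q : ℕ} (G : Matrix (Fin n) (Fin n) K) {f : Fin n → MvPowerSeries (Fin q) K}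
    (hf : ∀ i, constantCoeff (f i) = 0) (i : Fin n) :
    constantCoeff (∑ m, C (G i m) * f m) = 0 := by
  rw [map_sum]
  refine Finset.sum_eq_zero fun m _ => ?_
  rw [map_mul, hf, mul_zero]

theorem pd_lin {n : ℕ} (G : Matrix (Fin n) (Fin n) K) (i j : Fin n) :
    pderiv K j (lin G i) = C (G i j) := by
  rw [lin, map_sum, Finset.sum_eq_single j]
  · rw [Derivation.leibniz, pderiv_C, smul_zero, add_zero, smul_eq_mul, pderiv_X_self, mul_one]
  · intro m _ hm
    rw [Derivation.leibniz, pderiv_C, smul_zero, add_zero, smul_eq_mul, pderiv_X_of_ne hm,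
      mul_zero]
  · intro h
    exact absurd (Finset.mem_univ _) h

theorem coord_lin (cha : CHAStmt) {n : ℕ} (G : Matrix (Fin n) (Fin n) K) (hG : G.det ≠ 0)
    {x : Fin n → MvPowerSeries (Fin n) K} (hx : Coord x) :
    Coord (fun j => subst (lin G) (x j)) := by
  refine ⟨fun i => cc_subst0 (cc_lin G) (hx.1 i), ?_⟩
  have e : jac0 (fun j => subst (lin G) (x j)) = jac0 x * G := by
    ext i j
    rw [Matrix.mul_apply]
    show constantCoeff (pderiv K j (subst (lin G) (x i))) = _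
    rw [cha K _ _ (lin G) (cc_lin G), map_sum]
    refine Finset.sum_congr rfl fun k _ => ?_
    rw [map_mul, cc_subst (cc_lin G), pd_lin, constantCoeff_C]
    rfl
  rw [e, Matrix.det_mul]
  exact mul_ne_zero hx.2 hG

variable {L : Type} [Field L] [Algebra K L]

theorem pf_lin {n q : ℕ} (u : Fin n → Fin (n + 1) → L)
    (x : Fin (n + 1) → MvPowerSeries (Fin (n + 1)) K) (G : Matrix (Fin (n + 1)) (Fin (n + 1)) K)
    {f : Fin (n + 1) → MvPowerSeries (Fin q) K} (hf : ∀ i, constantCoeff (f i) = 0) :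
    pf u x (fun i => ∑ m, C (G i m) * f m) = pf u (fun j => subst (lin G) (x j)) f := by
  funext i
  rw [pf, pf]
  refine Finset.sum_congr rfl fun j _ => ?_
  rw [comp (cc_lin G) hf]
  simp only [subst_lin G hf]

end lin

theorem cc_fB {K : Type} [Field K] (v : Fin 6 → K) (i : Fin 5) :
    constantCoeff (fB v i) = 0 := by
  fin_cases i <;> simp [fB]

theorem cc_fC {K : Type} [Field K] (v : Fin 6 → K) (i : Fin 5) :
    constantCoeff (fC v i) = 0 := by
  fin_cases i <;> simp [fC]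

theorem cc_fR {K : Type} [Field K] (i : Fin 5) : constantCoeff (fR K i) = 0 := by
  fin_cases i <;> simp [fR]

theorem lv5 (cha : CHAStmt) (guu : GUUStmt) (bco : BCOStmt)
    (tpu : TPUStmt) (exa : EXAStmt) (exb : EXBStmt) (con : CONStmt) (tcc : TCCStmt)
    (tva : TVAStmt) (tvb : TVBStmt) (tvl : TVLStmt) (rkc : RKCStmt) (rkm : RKMStmt)
    (tgc : TGCStmt) (lv4 : LV4Stmt) : LV5Stmt := by
  intro K _ _ v G I h1 h2 h3 hG sA sB sC sL sR P hE
  rcases hE with ⟨_, h⟩ | ⟨_, x, hx, hE⟩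
  · exact (bco K 5 3 I _ sA).1 h
  · have hxc : Coord x := (bco K 5 3 I _ sA).2 x hx
    have hu : Gen K (uu 4 K) := guu 4 K
    set φ : Fin 5 → MvPowerSeries (Fin 5) K := fun j => subst (lin G) (x j) with hφd
    have hφ : Coord φ := coord_lin cha G hG hxc
    have vA : Van (critI (uu 4 K) x I) (pf (uu 4 K) φ (fA v)) := by
      have := tpu K (KU 4 K) 4 3 (uu 4 K) x I _ hxc.1 sA
      rwa [pf_lin (uu 4 K) x G (cc_fA v)] at this
    have vB : Van (critI (uu 4 K) x I) (pf (uu 4 K) φ (fB v)) := by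
      have := tpu K (KU 4 K) 4 3 (uu 4 K) x I _ hxc.1 sB
      rwa [pf_lin (uu 4 K) x G (cc_fB v)] at this
    have vC : Van (critI (uu 4 K) x I) (pf (uu 4 K) φ (fC v)) := by
      have := tpu K (KU 4 K) 4 3 (uu 4 K) x I _ hxc.1 sC
      rwa [pf_lin (uu 4 K) x G (cc_fC v)] at this
    have vL : Van (critI (uu 4 K) x I) (pf (uu 4 K) φ (fL K)) := by
      have := tpu K (KU 4 K) 4 3 (uu 4 K) x I _ hxc.1 sL
      rwa [pf_lin (uu 4 K) x G cc_fL] at this
    have vR : Van (critI (uu 4 K) x I) (pf (uu 4 K) φ (fR K)) := by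
      have := tpu K (KU 4 K) 4 3 (uu 4 K) x I _ hxc.1 sR
      rwa [pf_lin (uu 4 K) x G cc_fR] at this
    obtain ⟨η, d, ρ, hS, hη, hρ⟩ := exa K (KU 4 K) (uu 4 K) v φ hu h1 h2 h3 hφ
    obtain ⟨η', d', ρ', hS', hη', hρ'⟩ := exb K (KU 4 K) (uu 4 K) v φ hu h1 h2 h3 hφ
    have hcon := con K (KU 4 K) (uu 4 K) v φ η η' d d' ρ ρ' h1 h2 h3 hφ hS hS' hρ hρ'
    have hb : algebraMap K (KU 4 K) (v 1 ^ 2) ≠ 0 := by
      rw [Ne, _root_.map_eq_zero]
      exact pow_ne_zero 2 h1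
    have ha : algebraMap K (KU 4 K) (v 2) ≠ 0 := by
      rw [Ne, _root_.map_eq_zero]
      exact h2
    obtain ⟨tc, htc, htc1, htc2⟩ := tcc (KU 4 K) (algebraMap K (KU 4 K) (v 1 ^ 2))
      (algebraMap K (KU 4 K) (v 2)) η η' hb ha hη hcon
    have tA := tva K (KU 4 K) (uu 4 K) v φ η d ρ hu h1 h2 h3 hφ hS
    have tB := tvb K (KU 4 K) (uu 4 K) v φ η' d' ρ' hu h1 h2 h3 hφ hS'
    have tL := tvl K (KU 4 K) (uu 4 K) φ hu hφ
    have SA : SV (critI (uu 4 K) x I) (fun j => subst (prm η) (pf (uu 4 K) φ (fA v) j)) :=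
      ⟨3, 3, _, _, _, _, vA, vB, tA, fun j => rfl⟩
    have SB : SV (critI (uu 4 K) x I) (fun j => subst (prm η') (pf (uu 4 K) φ (fA v) j)) :=
      ⟨3, 3, _, _, _, _, vA, vC, tB, fun j => rfl⟩
    have SR : SV (critI (uu 4 K) x I) (fun j =>
        subst (![0, X 0, X 1] : Fin 3 → MvPowerSeries (Fin 2) (KU 4 K))
          (pf (uu 4 K) φ (fL K) j)) :=
      ⟨3, 3, _, _, _, _, vL, vR, tL, fun j => rfl⟩
    obtain ⟨rc1, cc, rc, hcc⟩ := rkc K (KU 4 K) (uu 4 K) v φ η η' tc hu h2 h3 hφ htc htc1 htc2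
    obtain ⟨rm1, cm, rm, hcm⟩ := rkm K (KU 4 K) (uu 4 K) v φ η hu h2 h3 hφ
    have ht := tgc K (KU 4 K) (uu 4 K) v φ η tc hu h2 h3 hφ htc
    refine lv4 (KU 4 K) (critI (uu 4 K) x I) _ _ _ ![X 0, tc] ![X 0, tc] ![0, X 0] ![0, X 0]
      cc cm rc rm SA SB SR ?_ ?_ ?_ ?_ rc1 rm1 hcc hcm ht _ hE
    · intro i
      fin_cases i
      · simp
      · simpa using htc
    · intro i
      fin_cases i
      · simp
      · simpa using htc
    · intro i
      fin_cases i <;> simp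
    · intro i
      fin_cases i <;> simp

end Pool.Agent.ZAR.H88
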