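import Pool.Agent.ZAR.Stmts

/-!
# Squad ZAR, rows RKC and RKM
-/

namespace Pool.Agent.ZAR.H88

open MvPowerSeries Pool.Agent.ZAR

section gen

variable {K L : Type} [Field K] [Field L] [Algebra K L]

theorem hs {m n : ℕ} {a : Fin m → MvPowerSeries (Fin n) K} (ha : ∀ i, constantCoeff (a i) = 0) :
    HasSubst a := hasSubst_of_constantCoeff_zero ha

theorem cc_subst {m n : ℕ} {a : Fin m → MvPowerSeries (Fin n) K}
    (ha : ∀ i, constantCoeff (a i) = 0) (f : MvPowerSeries (Fin m) K) :
    constantCoeff (subst a f) = constantCoeff f := by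
  have h1 : constantCoeff (f - C (constantCoeff f)) = 0 := by
    rw [map_sub, constantCoeff_C, sub_self]
  have h2 := constantCoeff_subst_eq_zero (hs ha) ha h1
  rw [subst_sub (hs ha), subst_C, map_sub, constantCoeff_C, sub_eq_zero] at h2
  exact h2

theorem cc_subst0 {m n : ℕ} {a : Fin m → MvPowerSeries (Fin n) K}
    (ha : ∀ i, constantCoeff (a i) = 0) {f : MvPowerSeries (Fin m) K}
    (hf : constantCoeff f = 0) : constantCoeff (subst a f) = 0 := by
  rw [cc_subst ha, hf]

theorem comp {m n q : ℕ} {a : Fin m → MvPowerSeries (Fin n) K}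
    {b : Fin n → MvPowerSeries (Fin q) K} (ha : ∀ i, constantCoeff (a i) = 0)
    (hb : ∀ i, constantCoeff (b i) = 0) (f : MvPowerSeries (Fin m) K) :
    subst b (subst a f) = subst (fun i => subst b (a i)) f :=
  subst_comp_subst_apply (hs ha) (hs hb) f

theorem pd_bc {σ : Type} (i : σ) (f : MvPowerSeries σ K) :
    pderiv L i (bc K L σ f) = bc K L σ (pderiv K i f) := by
  ext n
  rw [coeff_pderiv, coeff_map, coeff_map, coeff_pderiv, map_mul, map_add, map_natCast, map_one]

theorem cc_bc {σ : Type} (f : MvPowerSeries σ K) :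
    constantCoeff (bc K L σ f) = algebraMap K L (constantCoeff f) := by
  rw [← coeff_zero_eq_constantCoeff_apply, coeff_map, coeff_zero_eq_constantCoeff_apply]

/-- the derivatives of the push forward -/
theorem pd_pf (cha : CHAStmt) {n p : ℕ} (u : Fin n → Fin (n + 1) → L)
    (x : Fin (n + 1) → MvPowerSeries (Fin (n + 1)) K)
    (a : Fin (n + 1) → MvPowerSeries (Fin p) K) (ha : ∀ i, constantCoeff (a i) = 0)
    (j : Fin n) (i : Fin p) : pderiv L i (pf u x a j) =
      ∑ k, C (u j k) * bc K L (Fin p) (∑ m, subst a (pderiv K m (x k)) * pderiv K i (a m)) := by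
  rw [pf, map_sum]
  refine Finset.sum_congr rfl fun k _ => ?_
  rw [Derivation.leibniz, pderiv_C, smul_zero, add_zero, smul_eq_mul, pd_bc, cha K _ _ a ha]

theorem cc_pd_pf (cha : CHAStmt) {n p : ℕ} (u : Fin n → Fin (n + 1) → L)
    (x : Fin (n + 1) → MvPowerSeries (Fin (n + 1)) K)
    (a : Fin (n + 1) → MvPowerSeries (Fin p) K) (ha : ∀ i, constantCoeff (a i) = 0)
    (j : Fin n) (i : Fin p) : constantCoeff (pderiv L i (pf u x a j)) =
      ∑ k, u j k * algebraMap K L (∑ m, jac0 x k m * constantCoeff (pderiv K i (a m))) := by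
  rw [pd_pf cha u x a ha, map_sum]
  refine Finset.sum_congr rfl fun k _ => ?_
  rw [map_mul, constantCoeff_C, cc_bc, map_sum]
  congr 2
  refine Finset.sum_congr rfl fun m _ => ?_
  rw [map_mul, cc_subst ha]
  rfl

theorem cc_pf {n p : ℕ} (u : Fin n → Fin (n + 1) → L)
    (x : Fin (n + 1) → MvPowerSeries (Fin (n + 1)) K)
    (a : Fin (n + 1) → MvPowerSeries (Fin p) K) (ha : ∀ i, constantCoeff (a i) = 0)
    (hx : ∀ i, constantCoeff (x i) = 0) (j : Fin n) : constantCoeff (pf u x a j) = 0 := by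
  rw [pf, map_sum]
  refine Finset.sum_eq_zero fun k _ => ?_
  rw [map_mul, constantCoeff_C, cc_bc, cc_subst ha, hx, map_zero, mul_zero]

end gen

theorem cc_fA {K : Type} [Field K] (v : Fin 6 → K) (i : Fin 5) :
    constantCoeff (fA v i) = 0 := by
  fin_cases i <;> simp [fA]

theorem cc_fL {K : Type} [Field K] (i : Fin 5) : constantCoeff (fL K i) = 0 := by
  fin_cases i <;> simp [fL]

theorem cc_prm {L : Type} [Field L] (η : MvPowerSeries (Fin 2) L) (i : Fin 3) :
    constantCoeff (prm η i) = 0 := by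
  fin_cases i <;> simp [prm]

/-- the tangent vectors of `fA` at the origin -/
def NN {K : Type} [Field K] (v : Fin 6 → K) : Matrix (Fin 5) (Fin 4) K :=
  !![0, 0, 0, 0; v 2, 0, 0, 0; v 3, 0, 0, 1; v 4, 1, 0, 0; v 5, 0, 1, 0]

theorem pd_fA {K : Type} [Field K] (v : Fin 6 → K) (m : Fin 5) (i : Fin 3) :
    constantCoeff (pderiv K i (fA v m)) = NN v m (Fin.castSucc i) := by
  have h01 : pderiv K (0 : Fin 3) (X 1 : MvPowerSeries (Fin 3) K) = 0 :=
    pderiv_X_of_ne (by decide)
  have h02 : pderiv K (0 : Fin 3) (X 2 : MvPowerSeries (Fin 3) K) = 0 :=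
    pderiv_X_of_ne (by decide)
  have h10 : pderiv K (1 : Fin 3) (X 0 : MvPowerSeries (Fin 3) K) = 0 :=
    pderiv_X_of_ne (by decide)
  have h12 : pderiv K (1 : Fin 3) (X 2 : MvPowerSeries (Fin 3) K) = 0 :=
    pderiv_X_of_ne (by decide)
  have h20 : pderiv K (2 : Fin 3) (X 0 : MvPowerSeries (Fin 3) K) = 0 :=
    pderiv_X_of_ne (by decide)
  have h21 : pderiv K (2 : Fin 3) (X 1 : MvPowerSeries (Fin 3) K) = 0 :=
    pderiv_X_of_ne (by decide)
  have h00 : pderiv K (0 : Fin 3) (X 0 : MvPowerSeries (Fin 3) K) = 1 := pderiv_X_self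
  have h11 : pderiv K (1 : Fin 3) (X 1 : MvPowerSeries (Fin 3) K) = 1 := pderiv_X_self
  have h22 : pderiv K (2 : Fin 3) (X 2 : MvPowerSeries (Fin 3) K) = 1 := pderiv_X_self
  fin_cases m <;> fin_cases i <;>
    simp [fA, NN, Derivation.leibniz, h01, h02, h10, h12, h20, h21, h00, h11, h22, pow_two]

/-- some `3 × 3` minor of the tangent map at the origin is nonzero -/
theorem rk (cha : CHAStmt) (gdf : GDFStmt) {K L : Type} [Field K] [Field L] [Algebra K L]
    (u : Fin 4 → Fin 5 → L) (v : Fin 6 → K) (φ : Fin 5 → MvPowerSeries (Fin 5) K) (hu : Gen K u)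
    (h2 : v 2 ≠ 0) (hφ : Coord φ) : ∃ r : Fin 3 → Fin 4,
    ((Matrix.of fun (j : Fin 4) (i : Fin 3) =>
      constantCoeff (pderiv L i (pf u φ (fA v) j))).submatrix r id).det ≠ 0 := by
  have hdet : IsUnit (jac0 φ).det := isUnit_iff_ne_zero.2 hφ.2
  have h1 : (((!![0, 1, 0, 0, 0; 0, 0, 0, 1, 0; 0, 0, 0, 0, 1; 0, 0, 1, 0, 0] :
      Matrix (Fin 4) (Fin 5) K) * (jac0 φ)⁻¹) * (jac0 φ * NN v)).det ≠ 0 := by
    rw [Matrix.mul_assoc, ← Matrix.mul_assoc (jac0 φ)⁻¹, Matrix.nonsing_inv_mul _ hdet,
      Matrix.one_mul]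
    have e : (!![0, 1, 0, 0, 0; 0, 0, 0, 1, 0; 0, 0, 0, 0, 1; 0, 0, 1, 0, 0] :
        Matrix (Fin 4) (Fin 5) K) * NN v =
        !![v 2, 0, 0, 0; v 4, 1, 0, 0; v 5, 0, 1, 0; v 3, 0, 0, 1] := by
      ext i j
      fin_cases i <;> fin_cases j <;> simp [NN, Matrix.mul_apply, Fin.sum_univ_succ]
    rw [e, Matrix.det_succ_row_zero]
    simp [Fin.sum_univ_succ, Matrix.det_fin_three, h2]
  have h3 := gdf K L 4 u hu _ _ h1
  rw [Matrix.det_succ_column _ (Fin.last 3)] at h3
  obtain ⟨i, -, hi⟩ := Finset.exists_ne_zero_of_sum_ne_zero h3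
  refine ⟨i.succAbove, ?_⟩
  have h4 := right_ne_zero_of_mul hi
  refine fun h => h4 (Eq.trans ?_ h)
  congr 1
  ext a b
  rw [Matrix.submatrix_apply, Matrix.submatrix_apply, Matrix.of_apply, id,
    cc_pd_pf cha u φ _ (cc_fA v), Matrix.mul_apply, Fin.succAbove_last]
  refine Finset.sum_congr rfl fun k _ => ?_
  rw [Matrix.map_apply, Matrix.of_apply, Matrix.mul_apply]
  congr 2
  refine Finset.sum_congr rfl fun m _ => ?_
  rw [pd_fA]

theorem det_cc {L : Type} [Field L] {q : ℕ} (D : Matrix (Fin 4) (Fin 3) (MvPowerSeries (Fin q) L))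
    (r : Fin 3 → Fin 4) (h : ((Matrix.of fun j i => constantCoeff (D j i)).submatrix r id).det ≠ 0) :
    (D.submatrix r id).det ≠ 0 := by
  intro h0
  apply h
  have h1 := congrArg (constantCoeff (σ := Fin q) (R := L)) h0
  rw [RingHom.map_det, map_zero] at h1
  exact h1

section two

variable {L : Type} [Field L]

/-- chain rule for two substitutions -/
theorem sub_pd (cha : CHAStmt) {q : ℕ} {c : Fin 2 → MvPowerSeries (Fin q) L}
    (hc : ∀ i, constantCoeff (c i) = 0) {s : Fin 3 → MvPowerSeries (Fin 2) L}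
    (hs' : ∀ i, constantCoeff (s i) = 0) (T : MvPowerSeries (Fin 3) L) (k : Fin 2) :
    subst c (pderiv L k (subst s T)) =
      ∑ i, subst (fun l => subst c (s l)) (pderiv L i T) * subst c (pderiv L k (s i)) := by
  rw [cha L _ _ s hs' T k, ← substAlgHom_apply (hs hc), map_sum]
  refine Finset.sum_congr rfl fun i _ => ?_
  rw [map_mul, substAlgHom_apply, substAlgHom_apply, comp hs' hc]

theorem cc_c {tc : MvPowerSeries (Fin 1) L} (h : constantCoeff tc = 0) (i : Fin 2) :
    constantCoeff ((![X 0, tc] : Fin 2 → MvPowerSeries (Fin 1) L) i) = 0 := by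
  fin_cases i
  · simp
  · simpa using h

theorem cc_m (i : Fin 2) :
    constantCoeff ((![0, X 0] : Fin 2 → MvPowerSeries (Fin 1) L) i) = 0 := by
  fin_cases i <;> simp

theorem cc_l (i : Fin 3) :
    constantCoeff ((![0, X 0, X 1] : Fin 3 → MvPowerSeries (Fin 2) L) i) = 0 := by
  fin_cases i <;> simp

theorem sub_prm {c : Fin 2 → MvPowerSeries (Fin 1) L} (hc : ∀ i, constantCoeff (c i) = 0)
    (η : MvPowerSeries (Fin 2) L) :
    (fun l => subst c (prm η l)) = ![c 0, c 0 * subst c η, c 1] := by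
  funext l
  fin_cases l
  · exact subst_X (hs hc) 0
  · show subst c (X 0 * η) = _
    rw [subst_mul (hs hc), subst_X (hs hc)]
    rfl
  · exact subst_X (hs hc) 1

theorem pd_prm (η : MvPowerSeries (Fin 2) L) :
    pderiv L 0 (prm η 0) = 1 ∧ pderiv L 1 (prm η 0) = 0 ∧
    pderiv L 0 (prm η 1) = η + X 0 * pderiv L 0 η ∧ pderiv L 1 (prm η 1) = X 0 * pderiv L 1 η ∧
    pderiv L 0 (prm η 2) = 0 ∧ pderiv L 1 (prm η 2) = 1 := by
  have h01 : pderiv L (0 : Fin 2) (X 1 : MvPowerSeries (Fin 2) L) = 0 :=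
    pderiv_X_of_ne (by decide)
  have h10 : pderiv L (1 : Fin 2) (X 0 : MvPowerSeries (Fin 2) L) = 0 :=
    pderiv_X_of_ne (by decide)
  have h00 : pderiv L (0 : Fin 2) (X 0 : MvPowerSeries (Fin 2) L) = 1 := pderiv_X_self
  have h11 : pderiv L (1 : Fin 2) (X 1 : MvPowerSeries (Fin 2) L) = 1 := pderiv_X_self
  refine ⟨h00, h10, ?_, ?_, h01, h11⟩
  · show pderiv L 0 (X 0 * η) = _
    rw [Derivation.leibniz, h00, smul_eq_mul, smul_eq_mul, mul_one, add_comm]
  · show pderiv L 1 (X 0 * η) = _
    rw [Derivation.leibniz, h10, smul_eq_mul, smul_eq_mul, mul_zero, add_zero]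

end two

theorem X_ne {L : Type} [Field L] : (X 0 : MvPowerSeries (Fin 1) L) ≠ 0 := by
  intro h
  have h1 : pderiv L (0 : Fin 1) (X 0 : MvPowerSeries (Fin 1) L) = 1 := pderiv_X_self
  rw [h, map_zero] at h1
  exact zero_ne_one h1

theorem rkc (cha : CHAStmt) (gdf : GDFStmt) : RKCStmt := by
  intro K L _ _ _ _ u v φ η η' tc hu h2 _ hφ htc hη hne
  set c : Fin 2 → MvPowerSeries (Fin 1) L := ![X 0, tc] with hcdef
  have hc : ∀ i, constantCoeff (c i) = 0 := cc_c htc
  have hp : (fun l => subst c (prm η l)) = fun l => subst c (prm η' l) := by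
    rw [sub_prm hc, sub_prm hc, hη]
  refine ⟨fun j => ?_, ?_⟩
  · rw [comp (cc_prm η) hc, comp (cc_prm η') hc, hp]
  · obtain ⟨r, hr⟩ := rk cha gdf u v φ hu h2 hφ
    refine ⟨![Sum.inl 0, Sum.inl 1, Sum.inr 1], r, ?_⟩
    have hcp : ∀ l, constantCoeff ((fun l => subst c (prm η l)) l) = 0 := fun l =>
      cc_subst0 hc (cc_prm η l)
    obtain ⟨a1, a2, a3, a4, a5, a6⟩ := pd_prm η
    obtain ⟨b1, b2, b3, b4, b5, b6⟩ := pd_prm η'
    have e : tanM (fun j => subst (prm η) (pf u φ (fA v) j))
        (fun j => subst (prm η') (pf u φ (fA v) j)) c c ![Sum.inl 0, Sum.inl 1, Sum.inr 1] =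
        (Matrix.of fun (j : Fin 4) (i : Fin 3) =>
          subst (fun l => subst c (prm η l)) (pderiv L i (pf u φ (fA v) j))) *
        !![1, 0, 0; subst c (η + X 0 * pderiv L 0 η), X 0 * subst c (pderiv L 1 η),
          X 0 * subst c (pderiv L 1 η'); 0, 1, 1] := by
      have hX : subst c (X 0 : MvPowerSeries (Fin 2) L) = X 0 := by
        rw [subst_X (hs hc)]
        rfl
      have h1 : subst c (1 : MvPowerSeries (Fin 2) L) = 1 := by
        rw [← substAlgHom_apply (hs hc), map_one]
      have h0 : subst c (0 : MvPowerSeries (Fin 2) L) = 0 := by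
        rw [← substAlgHom_apply (hs hc), map_zero]
      ext1 j k
      rw [tanM, Matrix.mul_apply, Matrix.of_apply]
      fin_cases k
      · show subst c (pderiv L 0 (subst (prm η) (pf u φ (fA v) j))) = _
        rw [sub_pd cha hc (cc_prm η)]
        refine Finset.sum_congr rfl fun i _ => ?_
        fin_cases i
        · show _ * subst c (pderiv L 0 (prm η 0)) = _ * _
          rw [a1, h1]
          rfl
        · show _ * subst c (pderiv L 0 (prm η 1)) = _ * _
          rw [a3]
          rfl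
        · show _ * subst c (pderiv L 0 (prm η 2)) = _ * _
          rw [a5, h0]
          rfl
      · show subst c (pderiv L 1 (subst (prm η) (pf u φ (fA v) j))) = _
        rw [sub_pd cha hc (cc_prm η)]
        refine Finset.sum_congr rfl fun i _ => ?_
        fin_cases i
        · show _ * subst c (pderiv L 1 (prm η 0)) = _ * _
          rw [a2, h0]
          rfl
        · show _ * subst c (pderiv L 1 (prm η 1)) = _ * _
          rw [a4, subst_mul (hs hc), hX]
          rfl
        · show _ * subst c (pderiv L 1 (prm η 2)) = _ * _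
          rw [a6, h1]
          rfl
      · show subst c (pderiv L 1 (subst (prm η') (pf u φ (fA v) j))) = _
        rw [sub_pd cha hc (cc_prm η'), ← hp]
        refine Finset.sum_congr rfl fun i _ => ?_
        fin_cases i
        · show _ * subst c (pderiv L 1 (prm η' 0)) = _ * _
          rw [b2, h0]
          rfl
        · show _ * subst c (pderiv L 1 (prm η' 1)) = _ * _
          rw [b4, subst_mul (hs hc), hX]
          rfl
        · show _ * subst c (pderiv L 1 (prm η' 2)) = _ * _
          rw [b6, h1]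
          rfl
    rw [e]
    have e2 : ∀ (A : Matrix (Fin 4) (Fin 3) (MvPowerSeries (Fin 1) L))
        (B : Matrix (Fin 3) (Fin 3) (MvPowerSeries (Fin 1) L)),
        (A * B).submatrix r id = A.submatrix r id * B := by
      intro A B
      ext1 i j
      rfl
    rw [e2, Matrix.det_mul]
    refine mul_ne_zero (det_cc _ r ?_) ?_
    · refine fun h => hr (Eq.trans ?_ h)
      congr 2
      funext j i
      rw [Matrix.of_apply, Matrix.of_apply, Matrix.of_apply]
      exact (cc_subst hcp _).symm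
    · rw [Matrix.det_fin_three]
      have h3 : subst c (pderiv L 1 (η - η')) = subst c (pderiv L 1 η) - subst c (pderiv L 1 η') := by
        rw [map_sub, subst_sub (hs hc)]
      rw [h3] at hne
      have h4 : ∀ x y z : MvPowerSeries (Fin 1) L,
          (!![1, 0, 0; x, y, z; 0, 1, 1] : Matrix (Fin 3) (Fin 3) _).det = y - z := by
        intro x y z
        rw [Matrix.det_fin_three]
        simp
      rw [← Matrix.det_fin_three, h4, ← mul_sub]
      exact mul_ne_zero X_ne hne

theorem rkm (cha : CHAStmt) (gdf : GDFStmt) (pfs : PFSStmt) : RKMStmt := by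
  intro K L _ _ _ _ u v φ η hu h2 _ hφ
  set c : Fin 2 → MvPowerSeries (Fin 1) L := ![0, X 0] with hcdef
  have hc : ∀ i, constantCoeff (c i) = 0 := cc_m
  have hX0 : subst c (X 0 : MvPowerSeries (Fin 2) L) = 0 := by
    rw [subst_X (hs hc)]
    rfl
  have hX1 : subst c (X 1 : MvPowerSeries (Fin 2) L) = X 0 := by
    rw [subst_X (hs hc)]
    rfl
  have h1 : subst c (1 : MvPowerSeries (Fin 2) L) = 1 := by
    rw [← substAlgHom_apply (hs hc), map_one]
  have h0 : subst c (0 : MvPowerSeries (Fin 2) L) = 0 := by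
    rw [← substAlgHom_apply (hs hc), map_zero]
  -- the common point
  have hp : (fun l => subst c (prm η l)) =
      fun l => bc K L (Fin 1) ((![0, 0, X 0] : Fin 3 → MvPowerSeries (Fin 1) K) l) := by
    rw [sub_prm hc]
    funext l
    fin_cases l
    · simp [hcdef]
    · simp [hcdef]
    · simp [hcdef, map_X]
  have hq : (fun l => subst c ((![0, X 0, X 1] : Fin 3 → MvPowerSeries (Fin 2) L) l)) =
      fun l => bc K L (Fin 1) ((![0, 0, X 0] : Fin 3 → MvPowerSeries (Fin 1) K) l) := by
    funext l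
    fin_cases l
    · show subst c (0 : MvPowerSeries (Fin 2) L) = _
      rw [h0]
      simp
    · show subst c (X 0 : MvPowerSeries (Fin 2) L) = _
      rw [hX0]
      simp
    · show subst c (X 1 : MvPowerSeries (Fin 2) L) = _
      rw [hX1]
      simp [map_X]
  have hzz : ∀ i, constantCoeff ((![0, 0, X 0] : Fin 3 → MvPowerSeries (Fin 1) K) i) = 0 := by
    intro i
    fin_cases i <;> simp
  set z : Fin 3 → MvPowerSeries (Fin 1) K := ![0, 0, X 0] with hz
  have hfp : ∀ m, subst z (fA v m) = subst z (fL K m) := by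
    have e0 : subst z (X 0 : MvPowerSeries (Fin 3) K) = 0 := by
      rw [subst_X (hs hzz)]; rfl
    have e1 : subst z (X 1 : MvPowerSeries (Fin 3) K) = 0 := by
      rw [subst_X (hs hzz)]; rfl
    have e00 : subst z (0 : MvPowerSeries (Fin 3) K) = 0 := by
      rw [← substAlgHom_apply (hs hzz), map_zero]
    intro m
    fin_cases m
    · rfl
    · show subst z (C (v 2) * X 0 + C (v 1 ^ 2) * X 2 * X 0 ^ 2) = subst z 0
      rw [subst_add (hs hzz), subst_mul (hs hzz), subst_mul (hs hzz), subst_pow (hs hzz), e0, e00]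
      ring
    · show subst z (C (v 3) * X 0) = subst z (X 0)
      rw [subst_mul (hs hzz), e0, mul_zero]
    · show subst z (X 1 + C (v 4) * X 0) = subst z (X 1)
      rw [subst_add (hs hzz), subst_mul (hs hzz), e0, mul_zero, add_zero]
    · show subst z (X 2 + C (v 5) * X 0) = subst z (X 2)
      rw [subst_add (hs hzz), subst_mul (hs hzz), e0, mul_zero, add_zero]
  refine ⟨fun j => ?_, ?_⟩
  · rw [comp (cc_prm η) hc, comp cc_l hc, hp, hq]
    rw [← (pfs K L 4 3 1 u φ (fA v) z hφ.1 (cc_fA v) hzz).2 j,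
      ← (pfs K L 4 3 1 u φ (fL K) z hφ.1 cc_fL hzz).2 j]
    congr 1
    funext m
    exact hfp m
  · obtain ⟨r, hr⟩ := rk cha gdf u v φ hu h2 hφ
    refine ⟨![Sum.inl 0, Sum.inl 1, Sum.inr 0], r, ?_⟩
    have hcp : ∀ l, constantCoeff ((fun l => subst c (prm η l)) l) = 0 := fun l =>
      cc_subst0 hc (cc_prm η l)
    obtain ⟨a1, a2, a3, a4, a5, a6⟩ := pd_prm η
    -- the derivatives in the direction `X 1`
    have hD : ∀ j, subst (fun l => subst c (prm η l)) (pderiv L 1 (pf u φ (fA v) j)) =
        subst (fun l => subst c (prm η l)) (pderiv L 1 (pf u φ (fL K) j)) := by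
      intro j
      have key : ∀ g : MvPowerSeries (Fin 3) L, subst (fun l => subst c (prm η l)) g =
          substAlgHom (R := L) (hs hcp) g := fun g => (substAlgHom_apply _ _).symm
      rw [pd_pf cha u φ _ (cc_fA v), pd_pf cha u φ _ cc_fL, key, key, map_sum, map_sum]
      refine Finset.sum_congr rfl fun k _ => ?_
      rw [map_mul, map_mul]
      congr 1
      have hmap : ∀ g : MvPowerSeries (Fin 3) K, (substAlgHom (R := L) (hs hcp))
          (bc K L (Fin 3) g) = bc K L (Fin 1) (subst z g) := by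
        intro g
        rw [substAlgHom_apply, hp, map_subst (hs hzz)]
      rw [hmap, hmap]
      congr 1
      have keyz : ∀ g : MvPowerSeries (Fin 3) K, subst z g =
          substAlgHom (R := K) (hs hzz) g := fun g => (substAlgHom_apply _ _).symm
      rw [keyz, keyz, map_sum, map_sum]
      refine Finset.sum_congr rfl fun m _ => ?_
      rw [map_mul, map_mul, ← keyz, ← keyz, ← keyz, ← keyz, comp (cc_fA v) hzz,
        comp cc_fL hzz]
      congr 1
      · rw [show (fun l => subst z (fA v l)) = (fun l => subst z (fL K l)) from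
          funext fun l => hfp l]
      · have e1 : pderiv K (1 : Fin 3) (X 0 : MvPowerSeries (Fin 3) K) = 0 :=
          pderiv_X_of_ne (by decide)
        have e2 : pderiv K (1 : Fin 3) (X 2 : MvPowerSeries (Fin 3) K) = 0 :=
          pderiv_X_of_ne (by decide)
        congr 1
        fin_cases m <;> simp [fA, fL, Derivation.leibniz, e1, e2, pow_two]
    have e : tanM (fun j => subst (prm η) (pf u φ (fA v) j))
        (fun j => subst (![0, X 0, X 1] : Fin 3 → MvPowerSeries (Fin 2) L) (pf u φ (fL K) j))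
        c c ![Sum.inl 0, Sum.inl 1, Sum.inr 0] =
        (Matrix.of fun (j : Fin 4) (i : Fin 3) =>
          subst (fun l => subst c (prm η l)) (pderiv L i (pf u φ (fA v) j))) *
        !![1, 0, 0; subst c (η + X 0 * pderiv L 0 η), 0, 1; 0, 1, 0] := by
      ext1 j k
      rw [tanM, Matrix.mul_apply, Matrix.of_apply]
      fin_cases k
      · show subst c (pderiv L 0 (subst (prm η) (pf u φ (fA v) j))) = _
        rw [sub_pd cha hc (cc_prm η)]
        refine Finset.sum_congr rfl fun i _ => ?_
        fin_cases i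
        · show _ * subst c (pderiv L 0 (prm η 0)) = _ * _
          rw [a1, h1]
          rfl
        · show _ * subst c (pderiv L 0 (prm η 1)) = _ * _
          rw [a3]
          rfl
        · show _ * subst c (pderiv L 0 (prm η 2)) = _ * _
          rw [a5, h0]
          rfl
      · show subst c (pderiv L 1 (subst (prm η) (pf u φ (fA v) j))) = _
        rw [sub_pd cha hc (cc_prm η)]
        refine Finset.sum_congr rfl fun i _ => ?_
        fin_cases i
        · show _ * subst c (pderiv L 1 (prm η 0)) = _ * _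
          rw [a2, h0]
          rfl
        · show _ * subst c (pderiv L 1 (prm η 1)) = _ * _
          rw [a4, subst_mul (hs hc), hX0, zero_mul]
          rfl
        · show _ * subst c (pderiv L 1 (prm η 2)) = _ * _
          rw [a6, h1]
          rfl
      · show subst c (pderiv L 0 (subst (![0, X 0, X 1] : Fin 3 → MvPowerSeries (Fin 2) L)
          (pf u φ (fL K) j))) = _
        have e01 : pderiv L (0 : Fin 2) (X 1 : MvPowerSeries (Fin 2) L) = 0 :=
          pderiv_X_of_ne (by decide)
        have e00 : pderiv L (0 : Fin 2) (X 0 : MvPowerSeries (Fin 2) L) = 1 := pderiv_X_self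
        rw [sub_pd cha hc cc_l, Fin.sum_univ_three, Fin.sum_univ_three, hq, ← hp]
        show _ * subst c (pderiv L 0 0) + _ * subst c (pderiv L 0 (X 0)) +
          _ * subst c (pderiv L 0 (X 1)) = _ * 0 + _ * 1 + _ * 0
        rw [map_zero, e01, e00, h0, h1, mul_zero, mul_zero, mul_zero, mul_zero, ← hD]
        rfl
    rw [e]
    have e2 : ∀ (A : Matrix (Fin 4) (Fin 3) (MvPowerSeries (Fin 1) L))
        (B : Matrix (Fin 3) (Fin 3) (MvPowerSeries (Fin 1) L)),
        (A * B).submatrix r id = A.submatrix r id * B := by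
      intro A B
      ext1 i j
      rfl
    rw [e2, Matrix.det_mul]
    refine mul_ne_zero (det_cc _ r ?_) ?_
    · refine fun h => hr (Eq.trans ?_ h)
      congr 2
      funext j i
      rw [Matrix.of_apply, Matrix.of_apply, Matrix.of_apply]
      exact (cc_subst hcp _).symm
    · rw [Matrix.det_fin_three]
      simp

end Pool.Agent.ZAR.H88
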